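import Mathlib
import Pool.Agent.Helper35.PI.St3

namespace Helper31.PI

open Helper35.PI
open scoped ContDiff Manifold Topology ENNReal BigOperators
open MeasureTheory Set Filter

theorem hDA : StDA := by
  intro n N M _ _ F t R C hC hE
  have h := hE 0 1 one_pos
  unfold gaussArea at h
  set f : EE N → ℝ≥0∞ := fun x => (((fun q => F q t) ⁻¹' {x}).encard : ℝ≥0∞) with hf
  set g : EE N → ℝ≥0∞ := fun x => ENNReal.ofReal (Real.exp (-‖x - 0‖ ^ 2 / (4 * 1))) with hg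
  set a : ℝ≥0∞ := ENNReal.ofReal ((4 * Real.pi * 1) ^ (-(n : ℝ) / 2)) with ha
  have ha0 : a ≠ 0 := by
    rw [ha]
    have : 0 < (4 * Real.pi * 1) ^ (-(n : ℝ) / 2) := Real.rpow_pos_of_pos (by positivity) _
    exact (ENNReal.ofReal_pos.mpr this).ne'
  have hI : ∫⁻ x, f x * g x ∂μH[(n : ℝ)] ≠ ⊤ := by
    intro htop
    have h' : a * (∫⁻ x, f x * g x ∂μH[(n : ℝ)]) ≤ C := h
    rw [htop, ENNReal.mul_top ha0] at h'
    exact hC (top_le_iff.mp h')
  set b : ℝ≥0∞ := ENNReal.ofReal (Real.exp (-R ^ 2 / 4)) with hb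
  have hb0 : b ≠ 0 := (ENNReal.ofReal_pos.mpr (Real.exp_pos _)).ne'
  have h1 : b * ∫⁻ x in Metric.closedBall (0 : EE N) R, f x ∂μH[(n : ℝ)]
      ≤ ∫⁻ x in Metric.closedBall (0 : EE N) R, b * f x ∂μH[(n : ℝ)] :=
    lintegral_const_mul_le _ _
  have h2 : ∫⁻ x in Metric.closedBall (0 : EE N) R, b * f x ∂μH[(n : ℝ)]
      ≤ ∫⁻ x in Metric.closedBall (0 : EE N) R, f x * g x ∂μH[(n : ℝ)] := by
    refine setLIntegral_mono' Metric.isClosed_closedBall.measurableSet ?_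
    intro x hx
    rw [mul_comm]
    refine mul_le_mul_right ?_ _
    rw [hb, hg]
    refine ENNReal.ofReal_le_ofReal (Real.exp_le_exp.mpr ?_)
    rw [mem_closedBall_zero_iff] at hx
    have hx2 : ‖x - 0‖ ^ 2 ≤ R ^ 2 := by
      rw [sub_zero]
      exact pow_le_pow_left₀ (norm_nonneg x) hx 2
    rw [mul_one]
    have := hx2
    linarith [div_le_div_of_nonneg_right (neg_le_neg hx2) (by norm_num : (0:ℝ) ≤ 4)]
  have h3 : ∫⁻ x in Metric.closedBall (0 : EE N) R, f x * g x ∂μH[(n : ℝ)]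
      ≤ ∫⁻ x, f x * g x ∂μH[(n : ℝ)] := setLIntegral_le_lintegral _ _
  have h4 : b * ∫⁻ x in Metric.closedBall (0 : EE N) R, f x ∂μH[(n : ℝ)] < ⊤ :=
    lt_of_le_of_lt (h1.trans (h2.trans h3)) (lt_top_iff_ne_top.mpr hI)
  rw [lt_top_iff_ne_top]
  intro htop
  have h5 : ∫⁻ x in Metric.closedBall (0 : EE N) R, f x ∂μH[(n : ℝ)] = ⊤ := htop
  rw [h5, ENNReal.mul_top hb0] at h4
  exact lt_irrefl _ h4

end Helper31.PI
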