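import Mathlib
import Pool.Agent.Helper35.PI.St3

namespace Helper31.PI

open Helper35.PI
open scoped ContDiff Manifold Topology ENNReal BigOperators
open MeasureTheory Set Filter

section Lifts

variable {E X : Type*} [TopologicalSpace E] [TopologicalSpace X]

/-- `γ` is a lift of `f` on `[0,s]` starting at `p`. -/
def Lf (π : E → X) (f : ℝ → X) (p : E) (s : ℝ) (γ : ℝ → E) : Prop :=
  ContinuousOn γ (Icc 0 s) ∧ γ 0 = p ∧ ∀ σ ∈ Icc (0 : ℝ) s, π (γ σ) = f σ

variable {π : E → X} {f : ℝ → X} {p : E}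

omit [TopologicalSpace X] in
theorem Lf.mono {s s' : ℝ} {γ : ℝ → E} (h : Lf π f p s γ) (hs : s' ≤ s) : Lf π f p s' γ :=
  ⟨h.1.mono (Icc_subset_Icc_right hs), h.2.1, fun σ hσ => h.2.2 σ ⟨hσ.1, hσ.2.trans hs⟩⟩

theorem Lf.eqOn [T2Space E] (hom : IsLocalHomeomorph π) {s : ℝ} (hs : 0 ≤ s) {γ₁ γ₂ : ℝ → E}
    (h₁ : Lf π f p s γ₁) (h₂ : Lf π f p s γ₂) : EqOn γ₁ γ₂ (Icc 0 s) := by
  refine (T2Space.isSeparatedMap π).eqOn_of_comp_eqOn hom.isLocallyInjective
    isPreconnected_Icc h₁.1 h₂.1 ?_ (left_mem_Icc.mpr hs) (h₁.2.1.trans h₂.2.1.symm)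
  intro σ hσ
  exact (h₁.2.2 σ hσ).trans (h₂.2.2 σ hσ).symm

theorem Lf.ext_right (hom : IsLocalHomeomorph π) (hf : Continuous f) {s : ℝ} (hs : 0 ≤ s)
    {γ : ℝ → E} (h : Lf π f p s γ) : ∃ s' > s, ∃ γ', Lf π f p s' γ' := by
  obtain ⟨e, he, rfl⟩ := hom (γ s)
  have hfs : f s ∈ e.target := by
    rw [← h.2.2 s ⟨hs, le_rfl⟩]
    exact e.map_source he
  obtain ⟨δ, hδ, hball⟩ := Metric.isOpen_iff.mp (e.open_target.preimage hf) s hfs
  have hsub : ∀ σ ∈ Icc s (s + δ / 2), f σ ∈ e.target := by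
    intro σ hσ
    refine hball ?_
    rw [Metric.mem_ball, Real.dist_eq, abs_of_nonneg (by linarith [hσ.1])]
    linarith [hσ.2]
  refine ⟨s + δ / 2, by linarith, fun σ => if σ ≤ s then γ σ else e.symm (f σ), ?_, ?_, ?_⟩
  · rw [← Icc_union_Icc_eq_Icc hs (by linarith : s ≤ s + δ / 2)]
    refine ContinuousOn.union_of_isClosed ?_ ?_ isClosed_Icc isClosed_Icc
    · refine h.1.congr ?_
      intro σ hσ
      exact if_pos hσ.2
    · have hc : ContinuousOn (fun σ => e.symm (f σ)) (Icc s (s + δ / 2)) :=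
        e.continuousOn_symm.comp hf.continuousOn hsub
      refine hc.congr ?_
      intro σ hσ
      by_cases hσs : σ ≤ s
      · have : σ = s := le_antisymm hσs hσ.1
        subst this
        simp only [le_refl, if_true]
        rw [← h.2.2 σ ⟨hs, le_rfl⟩, e.left_inv he]
      · simp only [hσs, if_false]
  · simp only [hs, if_true]
    exact h.2.1
  · intro σ hσ
    by_cases hσs : σ ≤ s
    · simp only [hσs, if_true]
      exact h.2.2 σ ⟨hσ.1, hσs⟩
    · simp only [hσs, if_false]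
      exact e.right_inv (hsub σ ⟨(not_le.mp hσs).le, hσ.2⟩)

theorem Lf.lim [T2Space E] [T2Space X] (hom : IsLocalHomeomorph π) (hf : Continuous f) {s : ℝ}
    (hs : 0 < s) (hl : ∀ σ ∈ Ico (0 : ℝ) s, ∃ γ, Lf π f p σ γ)
    (hp : ∀ γ : ℝ → E, ContinuousOn γ (Ico 0 s) → γ 0 = p → (∀ σ ∈ Ico (0 : ℝ) s, π (γ σ) = f σ) →
      ∃ q, Tendsto γ (𝓝[<] s) (𝓝 q)) : ∃ γ, Lf π f p s γ := by
  classical
  choose G hG using hl
  set g : ℝ → E := fun σ => if h : σ ∈ Ico (0 : ℝ) s then G σ h σ else p with hg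
  have hgG : ∀ (σ : ℝ) (h : σ ∈ Ico (0 : ℝ) s), EqOn g (G σ h) (Icc 0 σ) := by
    intro σ h τ hτ
    have hτ' : τ ∈ Ico (0 : ℝ) s := ⟨hτ.1, lt_of_le_of_lt hτ.2 h.2⟩
    have h1 : g τ = G τ hτ' τ := by rw [hg]; exact dif_pos hτ'
    rw [h1]
    exact Lf.eqOn hom hτ.1 (hG τ hτ') ((hG σ h).mono hτ.2) ⟨hτ.1, le_rfl⟩
  have hgc : ContinuousOn g (Ico 0 s) := by
    intro τ hτ
    have hm : (τ + s) / 2 ∈ Ico (0 : ℝ) s := ⟨by linarith [hτ.1], by linarith [hτ.2]⟩
    have hc : ContinuousOn g (Icc 0 ((τ + s) / 2)) := (hG _ hm).1.congr (hgG _ hm)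
    have hc' := hc τ ⟨hτ.1, by linarith [hτ.2]⟩
    refine hc'.mono_of_mem_nhdsWithin ?_
    have : Iio ((τ + s) / 2) ∈ 𝓝 τ := Iio_mem_nhds (by linarith [hτ.2])
    filter_upwards [self_mem_nhdsWithin, mem_nhdsWithin_of_mem_nhds this] with σ h1 h2
    exact ⟨h1.1, le_of_lt h2⟩
  have h0 : (0 : ℝ) ∈ Ico (0 : ℝ) s := ⟨le_rfl, hs⟩
  have hg0 : g 0 = p := by
    rw [hgG 0 h0 ⟨le_rfl, le_rfl⟩]
    exact (hG 0 h0).2.1
  have hgf : ∀ σ ∈ Ico (0 : ℝ) s, π (g σ) = f σ := by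
    intro σ hσ
    rw [hgG σ hσ ⟨hσ.1, le_rfl⟩]
    exact (hG σ hσ).2.2 σ ⟨hσ.1, le_rfl⟩
  obtain ⟨q, hq⟩ := hp g hgc hg0 hgf
  have hq' : π q = f s := by
    have h1 : Tendsto (fun σ => π (g σ)) (𝓝[<] s) (𝓝 (π q)) :=
      (hom.continuous.tendsto q).comp hq
    have h2 : Tendsto (fun σ => f σ) (𝓝[<] s) (𝓝 (f s)) :=
      hf.continuousAt.continuousWithinAt
    have h3 : (fun σ => π (g σ)) =ᶠ[𝓝[<] s] fun σ => f σ := by
      rw [← nhdsWithin_Ico_eq_nhdsLT hs]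
      filter_upwards [self_mem_nhdsWithin] with σ hσ
      exact hgf σ hσ
    exact tendsto_nhds_unique (h1.congr' h3) h2 |>.symm ▸ rfl
  refine ⟨Function.update g s q, ?_, ?_, ?_⟩
  · rw [continuousOn_update_iff, Icc_sdiff_right, nhdsWithin_Ico_eq_nhdsLT hs]
    exact ⟨hgc, fun _ => hq⟩
  · rw [Function.update_of_ne hs.ne]
    exact hg0
  · intro σ hσ
    by_cases h : σ = s
    · subst h
      rw [Function.update_self]
      exact hq'
    · rw [Function.update_of_ne h]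
      exact hgf σ ⟨hσ.1, lt_of_le_of_ne hσ.2 h⟩

theorem exists_Lf [T2Space E] [T2Space X] (hom : IsLocalHomeomorph π) (hf : Continuous f)
    (hpf : π p = f 0)
    (hp : ∀ s : ℝ, 0 < s → s ≤ 1 → ∀ γ : ℝ → E, ContinuousOn γ (Ico 0 s) → γ 0 = p →
      (∀ σ ∈ Ico (0 : ℝ) s, π (γ σ) = f σ) → ∃ q, Tendsto γ (𝓝[<] s) (𝓝 q)) :
    ∃ γ, Lf π f p 1 γ := by
  set T : Set ℝ := {s | s ∈ Icc (0 : ℝ) 1 ∧ ∃ γ, Lf π f p s γ} with hT
  have h0T : (0 : ℝ) ∈ T := by
    refine ⟨⟨le_rfl, zero_le_one⟩, fun _ => p, continuousOn_const, rfl, ?_⟩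
    intro σ hσ
    have : σ = 0 := le_antisymm hσ.2 hσ.1
    rw [this]; exact hpf
  have hbdd : BddAbove T := ⟨1, fun s hs => hs.1.2⟩
  set S := sSup T with hS
  have hS0 : 0 ≤ S := le_csSup hbdd h0T
  have hS1 : S ≤ 1 := csSup_le ⟨0, h0T⟩ fun s hs => hs.1.2
  have hST : ∃ γ, Lf π f p S γ := by
    rcases eq_or_lt_of_le hS0 with h | h
    · rw [← h]; exact h0T.2
    · refine Lf.lim hom hf h ?_ (hp S h hS1)
      intro σ hσ
      obtain ⟨t, ht, hσt⟩ := exists_lt_of_lt_csSup ⟨0, h0T⟩ hσ.2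
      obtain ⟨γ, hγ⟩ := ht.2
      exact ⟨γ, hγ.mono hσt.le⟩
  rcases eq_or_lt_of_le hS1 with h | h
  · rw [h] at hST; exact hST
  · exfalso
    obtain ⟨γ, hγ⟩ := hST
    obtain ⟨s', hs', γ', hγ'⟩ := hγ.ext_right hom hf hS0
    have hmem : min s' 1 ∈ T :=
      ⟨⟨le_min (hS0.trans hs'.le) zero_le_one, min_le_right _ _⟩, γ', hγ'.mono (min_le_left _ _)⟩
    have := le_csSup hbdd hmem
    have h2 : S < min s' 1 := lt_min hs' h
    exact absurd (lt_of_lt_of_le h2 this) (lt_irrefl _)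

end Lifts

theorem hDL : StDL := by
  intro n M _ _ O φ p ρ hρ hO hpO hφp hloc hpath
  classical
  set π : O → EE n := fun q => φ q.1 with hπ
  have hφO : IsLocalHomeomorphOn φ O := by
    refine IsLocalHomeomorphOn.mk φ O fun q hq => ?_
    obtain ⟨e, he, _, hee⟩ := hloc q hq
    exact ⟨e, he, fun q' hq' => hee q' hq'⟩
  have hom : IsLocalHomeomorph π := by
    rw [isLocalHomeomorph_iff_isLocalHomeomorphOn_univ]
    refine IsLocalHomeomorphOn.comp (g := φ) (f := (Subtype.val : O → M)) hφO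
      (hO.isOpenEmbedding_subtypeVal.isLocalHomeomorph.isLocalHomeomorphOn (s := univ)) ?_
    intro q _
    exact q.2
  set p' : O := ⟨p, hpO⟩ with hp'
  set A := Metric.closedBall (0 : EE n) ρ with hA
  have hex : ∀ a : A, ∃ γ, Lf π (fun σ : ℝ => σ • (a : EE n)) p' 1 γ := by
    intro a
    have hax : ‖(a : EE n)‖ ≤ ρ := mem_closedBall_zero_iff.mp a.2
    refine exists_Lf hom (by fun_prop) ?_ ?_
    · rw [hπ]; simp only [hp', zero_smul]; exact hφp
    · intro s hs hs1 γ hγc hγ0 hγf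
      obtain ⟨q, hq, hqt⟩ := hpath a hax s hs hs1 (fun σ => (γ σ : M))
        (continuous_subtype_val.comp_continuousOn hγc) (by simp only [hγ0, hp'])
        (fun σ hσ => ⟨(γ σ).2, hγf σ hσ⟩)
      refine ⟨⟨q, hq⟩, ?_⟩
      rw [tendsto_subtype_rng]
      exact hqt
  choose Γ hΓ using hex
  -- joint continuity
  set f : C(unitInterval × A, EE n) := ⟨fun z => (z.1 : ℝ) • (z.2 : EE n), by fun_prop⟩ with hf
  set g : unitInterval × A → O := fun z => Γ z.2 z.1 with hg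
  have hgl : π ∘ g = f := by
    funext z
    exact (hΓ z.2).2.2 z.1 z.1.2
  have hg0 : Continuous (g ⟨0, ·⟩) := by
    have : (fun a : A => g ((0 : unitInterval), a)) = fun _ => p' := by
      funext a
      exact (hΓ a).2.1
    rw [this]
    exact continuous_const
  have hga : ∀ a, Continuous (g ⟨·, a⟩) := by
    intro a
    exact (hΓ a).1.comp_continuous continuous_subtype_val fun σ => σ.2
  have hgc : Continuous g :=
    hom.continuous_lift (T2Space.isSeparatedMap π) f hgl hg0 hga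
  set S : EE n → M := fun x => if h : x ∈ A then ((g (1, ⟨x, h⟩) : O) : M) else p with hS
  have hSA : ∀ (x : EE n) (h : x ∈ A), S x = ((g (1, ⟨x, h⟩) : O) : M) := by
    intro x h
    rw [hS]
    exact dif_pos h
  have hSc : ContinuousOn S A := by
    rw [continuousOn_iff_continuous_domRestrict]
    have : A.domRestrict S = fun a : A => ((g (1, a) : O) : M) := by
      funext a
      exact hSA a a.2
    rw [this]
    exact continuous_subtype_val.comp (hgc.comp (by fun_prop))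
  have hSO : ∀ x ∈ A, S x ∈ O ∧ φ (S x) = x := by
    intro x hx
    rw [hSA x hx]
    refine ⟨(g (1, ⟨x, hx⟩)).2, ?_⟩
    have h1 := congrFun hgl (1, ⟨x, hx⟩)
    have h2 : f (1, ⟨x, hx⟩) = x := by
      rw [hf]
      simp
    rw [h2] at h1
    exact h1
  have h0A : (0 : EE n) ∈ A := Metric.mem_closedBall_self hρ.le
  refine ⟨S, hSc, ?_, hSO, ?_⟩
  · rw [hSA 0 h0A]
    have hconst : Lf π (fun σ : ℝ => σ • (((⟨0, h0A⟩ : A)) : EE n)) p' 1 (fun _ => p') := by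
      refine ⟨continuousOn_const, rfl, ?_⟩
      intro σ _
      simp only [smul_zero]
      exact hφp
    have h1 := Lf.eqOn hom zero_le_one (hΓ ⟨0, h0A⟩) hconst ⟨zero_le_one, le_rfl⟩
    have h2 : g (1, ⟨0, h0A⟩) = p' := by
      rw [hg]
      simpa using h1
    rw [h2]
  · intro ρ' hρ'
    have hsub : Metric.ball (0 : EE n) ρ' ⊆ Metric.ball 0 ρ := Metric.ball_subset_ball hρ'
    have hsubA : Metric.ball (0 : EE n) ρ' ⊆ A := hsub.trans Metric.ball_subset_closedBall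
    have hSloc : IsLocalHomeomorphOn S (Metric.ball (0 : EE n) ρ') := by
      refine IsLocalHomeomorphOn.of_comp_left (g := φ) ?_ ?_ ?_
      · refine IsLocalHomeomorphOn.mk _ _ fun x hx => ?_
        refine ⟨OpenPartialHomeomorph.ofSet (Metric.ball (0 : EE n) ρ') Metric.isOpen_ball, hx, ?_⟩
        intro y hy
        exact (hSO y (hsubA hy)).2
      · refine hφO.mono ?_
        rintro _ ⟨x, hx, rfl⟩
        exact (hSO x (hsubA hx)).1
      · intro x hx
        exact hSc.continuousAt (Filter.mem_of_superset (Metric.isOpen_ball.mem_nhds (hsub hx))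
          Metric.ball_subset_closedBall)
    rw [isOpen_iff_mem_nhds]
    rintro _ ⟨x, hx, rfl⟩
    rw [← hSloc.map_nhds_eq hx]
    exact image_mem_map (Metric.isOpen_ball.mem_nhds hx)

end Helper31.PI
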