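import Mathlib
import Pool.Agent.Helper35.PI.St3

namespace Helper31.PI

open Helper35.PI
open scoped ContDiff Manifold Topology ENNReal BigOperators
open MeasureTheory Set Filter

theorem gron_zero {E : Type*} [NormedAddCommGroup E] [NormedSpace ℝ E] {φ φ' : ℝ → E}
    {a b K : ℝ} (hab : a ≤ b) (hc : ContinuousOn φ (Icc a b))
    (hd : ∀ s ∈ Ioo a b, HasDerivAt φ (φ' s) s)
    (hb : ∀ s ∈ Ioo a b, ‖φ' s‖ ≤ K * ‖φ s‖) (h0 : φ a = 0) : φ b = 0 := by
  rcases eq_or_lt_of_le hab with rfl | hab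
  · exact h0
  have key : ∀ c ∈ Ioo a b, ‖φ b‖ ≤ ‖φ c‖ * Real.exp (K * (b - c)) := by
    intro c hc'
    have h := norm_le_gronwallBound_of_norm_deriv_right_le (f := φ) (f' := φ')
      (δ := ‖φ c‖) (K := K) (ε := 0) (a := c) (b := b)
      (hc.mono (Icc_subset_Icc_left hc'.1.le))
      (fun x hx => (hd x ⟨lt_of_lt_of_le hc'.1 hx.1, hx.2⟩).hasDerivWithinAt) le_rfl
      (fun x hx => by simpa using hb x ⟨lt_of_lt_of_le hc'.1 hx.1, hx.2⟩) b
      ⟨hc'.2.le, le_rfl⟩
    rwa [gronwallBound_ε0] at h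
  have hcw : Tendsto φ (𝓝[Ioo a b] a) (𝓝 (φ a)) :=
    (hc a ⟨le_rfl, hab.le⟩).mono_left (nhdsWithin_mono _ Ioo_subset_Icc_self)
  have hex : Tendsto (fun c => Real.exp (K * (b - c))) (𝓝[Ioo a b] a)
      (𝓝 (Real.exp (K * (b - a)))) := by
    have : Continuous fun c : ℝ => Real.exp (K * (b - c)) := by fun_prop
    exact this.continuousAt.continuousWithinAt
  have hlim := hcw.norm.mul hex
  have hne : (𝓝[Ioo a b] a).NeBot := by
    rw [nhdsWithin_Ioo_eq_nhdsGT hab]
    infer_instance
  have hle : ‖φ b‖ ≤ ‖φ a‖ * Real.exp (K * (b - a)) :=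
    ge_of_tendsto hlim (Filter.eventually_of_mem self_mem_nhdsWithin key)
  rw [h0, norm_zero, zero_mul] at hle
  exact norm_le_zero_iff.mp hle

theorem hGW : StGW := by
  intro N m a b e C B hab hcont hder hbd v
  -- the vector of inner products
  set φ : ℝ → (Fin m → ℝ) := fun s i => (inner ℝ (e i s) v : ℝ) with hφ
  have hφc : ContinuousOn φ (Icc a b) := by
    refine continuousOn_pi.mpr fun i => ?_
    exact (hcont i).inner continuousOn_const
  have hφd : ∀ s ∈ Ioo a b, HasDerivAt φ (fun i => ∑ j, C i j s * φ s j) s := by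
    intro s hs
    refine hasDerivAt_pi.mpr fun i => ?_
    have h1 := (hder i s hs).inner ℝ (hasDerivAt_const s v)
    have h2 : (inner ℝ (e i s) (0 : EE N) : ℝ) + inner ℝ (∑ j, C i j s • e j s) v
        = ∑ j, C i j s * φ s j := by
      rw [inner_zero_right, zero_add, sum_inner]
      refine Finset.sum_congr rfl fun j _ => ?_
      rw [real_inner_smul_left]
    rw [h2] at h1
    exact h1
  have hB : ∀ s ∈ Ioo a b, ‖(fun i => ∑ j, C i j s * φ s j : Fin m → ℝ)‖
      ≤ (m * |B|) * ‖φ s‖ := by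
    intro s hs
    refine (pi_norm_le_iff_of_nonneg (by positivity)).mpr fun i => ?_
    calc ‖∑ j, C i j s * φ s j‖ ≤ ∑ j, ‖C i j s * φ s j‖ := norm_sum_le _ _
      _ ≤ ∑ _j : Fin m, |B| * ‖φ s‖ := by
          refine Finset.sum_le_sum fun j _ => ?_
          rw [norm_mul]
          refine mul_le_mul ?_ (norm_le_pi_norm _ j) (norm_nonneg _) (abs_nonneg _)
          rw [Real.norm_eq_abs]
          exact (hbd i j s hs).trans (le_abs_self B)
      _ = (m * |B|) * ‖φ s‖ := by
          rw [Finset.sum_const, Finset.card_univ, Fintype.card_fin, nsmul_eq_mul]; ring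
  have hiff : ∀ s, (∀ i, (inner ℝ (e i s) v : ℝ) = 0) ↔ φ s = 0 := by
    intro s
    constructor
    · intro h
      funext i
      exact h i
    · intro h i
      exact congrFun h i
  rw [hiff, hiff]
  constructor
  · intro h0
    exact gron_zero hab hφc hφd hB h0
  · intro h0
    -- time reversal
    set ψ : ℝ → (Fin m → ℝ) := fun s => φ (a + b - s) with hψ
    have hmap : ∀ s ∈ Icc a b, a + b - s ∈ Icc a b := by
      intro s hs
      exact ⟨by linarith [hs.2], by linarith [hs.1]⟩
    have hmap' : ∀ s ∈ Ioo a b, a + b - s ∈ Ioo a b := by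
      intro s hs
      exact ⟨by linarith [hs.2], by linarith [hs.1]⟩
    have hψc : ContinuousOn ψ (Icc a b) := by
      refine hφc.comp ?_ hmap
      exact (continuous_const.sub continuous_id).continuousOn
    have hψd : ∀ s ∈ Ioo a b, HasDerivAt ψ
        (-(fun i => ∑ j, C i j (a + b - s) * φ (a + b - s) j)) s := by
      intro s hs
      have h1 := hφd _ (hmap' s hs)
      have h2 : HasDerivAt (fun s : ℝ => a + b - s) (-1) s := by
        simpa using (hasDerivAt_id s).const_sub (a + b)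
      have h3 := h1.scomp s h2
      rw [neg_one_smul] at h3
      exact h3
    have hψB : ∀ s ∈ Ioo a b,
        ‖(-(fun i => ∑ j, C i j (a + b - s) * φ (a + b - s) j) : Fin m → ℝ)‖
        ≤ (m * |B|) * ‖ψ s‖ := by
      intro s hs
      rw [norm_neg]
      exact hB _ (hmap' s hs)
    have h4 : ψ a = 0 := by
      rw [hψ]
      simpa using h0
    have h5 := gron_zero hab hψc hψd hψB h4
    rw [hψ] at h5
    simpa using h5

end Helper31.PI
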